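import Pool.Agent.Lib.MP_2027e1_lc.Kum
import Pool.Agent.Lib.MP_2027e1_lc.Low
import Pool.Agent.Lib.MP_2027e1_lc.Rc
import Pool.Agent.Lib.MP_2027e1_lc.Nrm
import Pool.Agent.Lib.MP_2027e1_lc.Part

/-!
# MP_2027e1_lc: a universal Diophantine polynomial with eight unknowns (`m* ≤ 8`)
-/

set_option autoImplicit false

namespace Pool.Agent.Results.MP_2027e1_lc.EightUnknowns

open Pool.Agent.Lib.MP2027e1

theorem result :
    ∃ P : MvPolynomial (Fin 2 ⊕ Fin 8) ℤ, ∀ S : Set ℕ, REPred (fun x => x ∈ S) →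
      ∃ i : ℕ, 0 < i ∧ ∀ x : ℕ, x ∈ S ↔
        ∃ y : Fin 8 → ℕ,
          MvPolynomial.eval (fun s => ((Sum.elim ![i, x] y s : ℕ) : ℤ)) P = 0 := by
  have hBQ : SpecBQ := specBQ specConv specBin specFac specProdd
  have hPart : SpecPart := specPart hBQ
  have hD : SpecDPRM := specDPRM hPart specConv
  have h8 : SpecDim8 := specDim8 specExS specExC specLowS specLowC (specExtrS specErr specNrmS)
    (specExtrC specErr specNrmC) specRC (specTest specKum) (specCode specMult)
  exact specFinal hD h8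

end Pool.Agent.Results.MP_2027e1_lc.EightUnknowns
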